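import Pool.Agent.Helper68.YT.St
import Pool.Agent.Helper95.YMN.F7

/-!
# Project YT, module SFV: the field of `C` on spherical flows
-/

set_option autoImplicit false

namespace Pool.Agent.Helper66.YT

open _root_.Helper68.YT
open _root_.Helper35.PI hiding hN
open _root_.Helper35.PI2 _root_.Helper35.YM _root_.Helper35.YMG _root_.Helper25.YMJ
open _root_.Helper35.YMA _root_.Helper19.YMN
open Pool.Agent.Helper95.YMN
open scoped BigOperators
open Finset

/-- exchange of sums -/
private theorem gen_SFV {n p : ℕ} (F : Fin p → Fin n → Fin n → ℝ) (c : Fin p → ℝ)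
    (G : Fin p → Fin n → Fin n → ℝ) :
    ∑ m, ∑ r, (∑ b, F b m r) * (∑ a, c a * G a m r) =
      ∑ a, c a * ∑ b, ∑ m, ∑ r, F b m r * G a m r := by
  calc ∑ m, ∑ r, (∑ b, F b m r) * (∑ a, c a * G a m r) =
        ∑ m, ∑ r, ∑ a, ∑ b, c a * (F b m r * G a m r) := by
        refine Finset.sum_congr rfl fun m _ => Finset.sum_congr rfl fun r _ => ?_
        rw [Finset.sum_mul_sum, Finset.sum_comm]
        exact Finset.sum_congr rfl fun a _ => Finset.sum_congr rfl fun b _ => by ring
    _ = ∑ m, ∑ a, ∑ r, ∑ b, c a * (F b m r * G a m r) :=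
        Finset.sum_congr rfl fun m _ => Finset.sum_comm
    _ = ∑ a, ∑ m, ∑ r, ∑ b, c a * (F b m r * G a m r) := Finset.sum_comm
    _ = ∑ a, ∑ m, ∑ b, ∑ r, c a * (F b m r * G a m r) :=
        Finset.sum_congr rfl fun a _ => Finset.sum_congr rfl fun m _ => Finset.sum_comm
    _ = ∑ a, ∑ b, ∑ m, ∑ r, c a * (F b m r * G a m r) :=
        Finset.sum_congr rfl fun a _ => Finset.sum_comm
    _ = ∑ a, c a * ∑ b, ∑ m, ∑ r, F b m r * G a m r := by
        simp only [Finset.mul_sum]

section

variable {n p : ℕ}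

private theorem s1_SFV (B : Fin p → Fin n → Fin n → ℝ) (hB : ∀ a i j, B a i j = B a j i)
    (c : Fin p → ℝ) (j l : Fin n) :
    ∑ m, ∑ r, (∑ b, B b j r * B b l m) * (∑ a, c a * B a r m) =
      ∑ a, c a * ∑ b, ∑ k, ∑ o, B b j k * B a k o * B b o l := by
  rw [gen_SFV (fun b m r => B b j r * B b l m) c (fun a m r => B a r m)]
  refine Finset.sum_congr rfl fun a _ => ?_
  congr 1
  refine Finset.sum_congr rfl fun b _ => ?_
  rw [Finset.sum_comm]
  refine Finset.sum_congr rfl fun k _ => Finset.sum_congr rfl fun o _ => ?_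
  rw [hB b l o]
  ring

private theorem s2_SFV (B : Fin p → Fin n → Fin n → ℝ) (hB : ∀ a i j, B a i j = B a j i)
    (c : Fin p → ℝ) (j l : Fin n) :
    ∑ m, ∑ r, (∑ b, B b m r * B b m j) * (∑ a, c a * B a r l) =
      ∑ a, c a * ∑ b, ∑ k, ∑ o, B b j k * B b k o * B a o l := by
  rw [gen_SFV (fun b m r => B b m r * B b m j) c (fun a m r => B a r l)]
  refine Finset.sum_congr rfl fun a _ => ?_
  congr 1
  refine Finset.sum_congr rfl fun b _ => ?_
  refine Finset.sum_congr rfl fun k _ => Finset.sum_congr rfl fun o _ => ?_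
  rw [hB b k j]
  ring

private theorem s3_SFV (B : Fin p → Fin n → Fin n → ℝ) (hB : ∀ a i j, B a i j = B a j i)
    (c : Fin p → ℝ) (j l : Fin n) :
    ∑ m, ∑ r, (∑ b, B b m r * B b m l) * (∑ a, c a * B a j r) =
      ∑ a, c a * ∑ b, ∑ k, ∑ o, B a j k * B b k o * B b o l := by
  rw [gen_SFV (fun b m r => B b m r * B b m l) c (fun a m r => B a j r)]
  refine Finset.sum_congr rfl fun a _ => ?_
  congr 1
  refine Finset.sum_congr rfl fun b _ => ?_
  rw [Finset.sum_comm]
  refine Finset.sum_congr rfl fun k _ => Finset.sum_congr rfl fun o _ => ?_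
  rw [hB b o k]
  ring

private theorem s4_SFV (B : Fin p → Fin n → Fin n → ℝ) (hB : ∀ a i j, B a i j = B a j i)
    (c : Fin p → ℝ) (j l : Fin n) :
    ∑ m, ∑ r, (∑ b, B b m r * B b j l) * (∑ a, c a * B a r m) =
      ∑ a, c a * ∑ b, (∑ k, ∑ o, B a k o * B b k o) * B b j l := by
  rw [gen_SFV (fun b m r => B b m r * B b j l) c (fun a m r => B a r m)]
  refine Finset.sum_congr rfl fun a _ => ?_
  congr 1
  refine Finset.sum_congr rfl fun b _ => ?_
  rw [Finset.sum_mul]
  refine Finset.sum_congr rfl fun k _ => ?_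
  rw [Finset.sum_mul]
  refine Finset.sum_congr rfl fun o _ => ?_
  rw [hB a o k]
  ring

/-- the terms of the sphere part cancel -/
private theorem hh_SFV (h : Fin n → Fin n → ℝ) (u : ℝ) (hh : ∀ i j, h i j = if i = j then u else 0)
    (K : Fin n → Fin n → ℝ) (hK : ∑ i, K i i = 0) (j l : Fin n) :
    ∑ m, ∑ r, (2 * (h j r * h l m * K r m) - h m r * h m j * K r l - h m r * h m l * K j r
      - h m r * h j l * K r m) = 0 := by
  have A : ∀ (G : Fin n → ℝ) (i : Fin n), ∑ r, h i r * G r = u * G i := by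
    intro G i
    simp only [hh, ite_mul, zero_mul, Finset.sum_ite_eq, Finset.mem_univ, if_true]
  have A' : ∀ (G : Fin n → ℝ) (i : Fin n), ∑ r, h r i * G r = u * G i := by
    intro G i
    simp only [hh, ite_mul, zero_mul, Finset.sum_ite_eq', Finset.mem_univ, if_true]
  have e1 : ∑ m, ∑ r, h j r * h l m * K r m = u * u * K j l := by
    have h1 : ∀ m, ∑ r, h j r * h l m * K r m = u * (h l m * K j m) := by
      intro m
      rw [← A (fun r => h l m * K r m) j]
      exact Finset.sum_congr rfl fun r _ => by ring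
    simp only [h1]
    rw [← Finset.mul_sum, A (fun m => K j m) l]
    ring
  have e2 : ∑ m, ∑ r, h m r * h m j * K r l = u * u * K j l := by
    have h1 : ∀ m, ∑ r, h m r * h m j * K r l = u * (h m j * K m l) := by
      intro m
      rw [← A (fun r => h m j * K r l) m]
      exact Finset.sum_congr rfl fun r _ => by ring
    simp only [h1]
    rw [← Finset.mul_sum, A' (fun m => K m l) j]
    ring
  have e3 : ∑ m, ∑ r, h m r * h m l * K j r = u * u * K j l := by
    have h1 : ∀ m, ∑ r, h m r * h m l * K j r = u * (h m l * K j m) := by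
      intro m
      rw [← A (fun r => h m l * K j r) m]
      exact Finset.sum_congr rfl fun r _ => by ring
    simp only [h1]
    rw [← Finset.mul_sum, A' (fun m => K j m) l]
    ring
  have e4 : ∑ m, ∑ r, h m r * h j l * K r m = 0 := by
    have h1 : ∀ m, ∑ r, h m r * h j l * K r m = u * h j l * K m m := by
      intro m
      have h2 := A (fun r => h j l * K r m) m
      have h3 : ∑ r, h m r * h j l * K r m = ∑ r, h m r * (h j l * K r m) :=
        Finset.sum_congr rfl fun r _ => by ring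
      rw [h3, h2]
      ring
    simp only [h1]
    rw [← Finset.mul_sum, hK, mul_zero]
  simp only [Finset.sum_sub_distrib, ← Finset.mul_sum]
  rw [e1, e2, e3, e4]
  ring

private theorem key_SFV (s : SD n p) (hs : SPH s) (c : Fin p → Fin n → Fin n → ℝ) (j l : Fin n) :
    ∑ m, ∑ r, (2 * (gg4 s.h s.B j r l m * kk s.h s.B (fun _ _ => 0) c j l r m)
      - gg4 s.h s.B m r m j * kk s.h s.B (fun _ _ => 0) c j l r l
      - gg4 s.h s.B m r m l * kk s.h s.B (fun _ _ => 0) c j l j r
      - gg4 s.h s.B m r j l * kk s.h s.B (fun _ _ => 0) c j l r m) =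
    ∑ a, c a j l * (lapB s a j l - 1 / (n : ℝ) * s.B a j l) := by
  have e : ∀ m r, (2 * (gg4 s.h s.B j r l m * kk s.h s.B (fun _ _ => 0) c j l r m)
      - gg4 s.h s.B m r m j * kk s.h s.B (fun _ _ => 0) c j l r l
      - gg4 s.h s.B m r m l * kk s.h s.B (fun _ _ => 0) c j l j r
      - gg4 s.h s.B m r j l * kk s.h s.B (fun _ _ => 0) c j l r m) =
      (2 * (s.h j r * s.h l m * ∑ a, c a j l * s.B a r m)
        - s.h m r * s.h m j * (∑ a, c a j l * s.B a r l)
        - s.h m r * s.h m l * (∑ a, c a j l * s.B a j r)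
        - s.h m r * s.h j l * ∑ a, c a j l * s.B a r m) +
      (2 * ((∑ b, s.B b j r * s.B b l m) * ∑ a, c a j l * s.B a r m)
        - (∑ b, s.B b m r * s.B b m j) * (∑ a, c a j l * s.B a r l)
        - (∑ b, s.B b m r * s.B b m l) * (∑ a, c a j l * s.B a j r)
        - (∑ b, s.B b m r * s.B b j l) * ∑ a, c a j l * s.B a r m) := by
    intro m r
    unfold gg4 kk
    ring
  simp only [e]
  simp only [Finset.sum_add_distrib]
  rw [hh_SFV s.h (1 / (n : ℝ)) hs.h (fun r m => ∑ a, c a j l * s.B a r m) (by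
    rw [Finset.sum_comm]
    refine Finset.sum_eq_zero fun a _ => ?_
    rw [← Finset.mul_sum, hs.Bt a, mul_zero]) j l]
  have hB := hs.Bs
  simp only [Finset.sum_sub_distrib, ← Finset.mul_sum]
  rw [s1_SFV s.B hB (fun a => c a j l) j l, s2_SFV s.B hB (fun a => c a j l) j l,
    s3_SFV s.B hB (fun a => c a j l) j l, s4_SFV s.B hB (fun a => c a j l) j l]
  rw [zero_add, Finset.mul_sum, ← Finset.sum_sub_distrib, ← Finset.sum_sub_distrib,
    ← Finset.sum_sub_distrib]
  refine Finset.sum_congr rfl fun a _ => ?_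
  unfold lapB
  simp only [Finset.sum_add_distrib, Finset.sum_sub_distrib, ← Finset.mul_sum]
  ring

end

theorem hSFV (hFXS : StFXS) (hSFC : StSFC) : StSFV := by
  intro n hn c c₁ hM
  have hn0 : (0 : ℝ) < n := by exact_mod_cast (by omega : 0 < n)
  have hpos : 0 < 2 / (n : ℝ) := by positivity
  have h1 := hFXS n hn _ _ _ (FX.ofC hM (MR.zero hpos))
  refine (hSFC n hn).1 _ _ h1 ?_
  intro p s hs
  have hX : s.X = fun _ => 0 := funext hs.X
  have hy : ∀ m, s.y m = 0 := by
    intro m
    unfold SD.y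
    simp only [hs.X, mul_zero, Finset.sum_const_zero]
  have hv : ∀ a m, s.v a m = 0 := by
    intro a m
    unfold SD.v
    simp only [hs.X, mul_zero, Finset.sum_const_zero]
  have e1 : grS s.t s.T
      (fun m j l => (0 : ℝ) + s.y m * 0 - ∑ a, c p s a j l * s.v a m)
      (fun a m j l => c₁ p s a m j l + s.y m * c p s a j l + 0 * s.v a m) =
      ∑ a, ∑ j, ∑ l, ∑ m, s.T a m j l * c₁ p s a m j l := by
    unfold grS
    simp only [hs.t, hy, zero_mul, add_zero, Finset.sum_const_zero, zero_add]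
    refine Finset.sum_congr rfl fun a _ => ?_
    rw [Finset.sum_comm]
    exact Finset.sum_congr rfl fun j _ => Finset.sum_comm
  have e2 : reS s.h s.B (fun _ _ => 0) (c p s) =
      ∑ a, ∑ j, ∑ l, c p s a j l * (lapB s a j l - 1 / (n : ℝ) * s.B a j l) := by
    unfold reS
    rw [Finset.sum_congr rfl fun j _ => Finset.sum_congr rfl fun l _ => key_SFV s hs (c p s) j l]
    rw [Finset.sum_congr rfl fun j _ => Finset.sum_comm, Finset.sum_comm]
  have e3 : RC c (fun _ _ _ _ => 0) p s = ∑ a, ∑ j, ∑ l, c p s a j l * s.B a j l := by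
    unfold RC
    simp only [zero_mul, zero_add]
    rw [Finset.sum_congr rfl fun j _ => Finset.sum_comm, Finset.sum_comm]
  show QC c c₁ (fun _ _ _ _ => 0) (fun _ _ _ _ _ => 0) p s +
    1 / (n : ℝ) * RC c (fun _ _ _ _ => 0) p s = QV c c₁ p s
  unfold QC
  rw [e1, e2, e3]
  unfold QV
  simp only [Finset.mul_sum, ← Finset.sum_add_distrib]
  refine Finset.sum_congr rfl fun a _ => Finset.sum_congr rfl fun j _ =>
    Finset.sum_congr rfl fun l _ => ?_
  ring

end Pool.Agent.Helper66.YT
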